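import Pool.Agent.J4H38.UD.Sup

/-!
UD (U4) `S_CONN2`: totally disconnected closed sets do not separate domains.
-/

set_option autoImplicit false
open Set Filter Topology Metric Complex MeasureTheory

namespace Pool.Agent.J4H38.UD

open Pool.Agent.J4H16 Pool.Agent.W746.LD Pool.Agent.J4H16.AS Pool.Agent.J4H16.UD

theorem TD.mono {L L' : Set ℂ} (h : TD L) (hs : L' ⊆ L) : TD L' := by
  intro Z hZ e he
  obtain ⟨D, h1, h2, h3, h4⟩ := h Z (hs hZ) e he
  exact ⟨D, h1, h2, h3, fun z hz hz' => h4 z hz (hs hz')⟩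

/-- a set with `TD` has empty interior -/
theorem TD.not_nhds {L : Set ℂ} (h : TD L) (z : ℂ) : ¬ L ∈ 𝓝 z := by
  intro hz
  obtain ⟨δ, hδ, hs⟩ := Metric.mem_nhds_iff.1 hz
  obtain ⟨D, h1, h2, h3, h4⟩ := h z (mem_of_mem_nhds hz) (δ / 2) (by positivity)
  have hcl : closure D ⊆ L := by
    refine (closure_mono h3).trans (closure_ball_subset_closedBall.trans ?_)
    exact (closedBall_subset_ball (by linarith)).trans hs
  have hfr : frontier D = ∅ := by
    ext w
    simp only [mem_empty_iff_false, iff_false]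
    intro hw
    exact h4 w hw (hcl (frontier_subset_closure hw))
  rcases isClopen_iff.1 ((isClopen_iff_frontier_eq_empty).2 hfr) with h5 | h5
  · rw [h5] at h2; exact h2
  · have h6 : (z + δ : ℂ) ∈ ball z (δ / 2) := h3 (by rw [h5]; trivial)
    rw [mem_ball, dist_eq_norm, add_sub_cancel_left, norm_real, Real.norm_eq_abs,
      abs_of_pos hδ] at h6
    linarith

/-- the collar of a conformal disc is connected -/
theorem collar_preconnected {φ : ℂ → ℂ} {κ : ℝ} {L : Set ℂ} (h : CD φ κ L) :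
    IsPreconnected (φ '' {ζ : ℂ | κ < ‖ζ‖ ∧ ‖ζ‖ < 1}) := by
  have hA : IsPreconnected {ζ : ℂ | κ < ‖ζ‖ ∧ ‖ζ‖ < 1} := by
    have himg : {ζ : ℂ | κ < ‖ζ‖ ∧ ‖ζ‖ < 1} =
        (fun p : ℝ × ℝ => (p.1 : ℂ) * exp (p.2 * I)) '' (Ioo κ 1 ×ˢ univ) := by
      ext ζ
      constructor
      · rintro ⟨h1, h2⟩
        refine ⟨(‖ζ‖, arg ζ), ⟨⟨h1, h2⟩, trivial⟩, ?_⟩
        exact norm_mul_exp_arg_mul_I ζ
      · rintro ⟨⟨r, t⟩, ⟨⟨h1, h2⟩, -⟩, rfl⟩
        have hr : 0 < r := h.k0.trans h1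
        have : ‖(r : ℂ) * exp (t * I)‖ = r := by
          rw [norm_mul, norm_exp_ofReal_mul_I, mul_one, norm_real, Real.norm_eq_abs, abs_of_pos hr]
        exact ⟨by rw [this]; exact h1, by rw [this]; exact h2⟩
    rw [himg]
    refine ((isPreconnected_Ioo).prod isPreconnected_univ).image _ ?_
    fun_prop
  refine hA.image _ (h.u.1.continuousOn.mono ?_)
  rintro ζ ⟨-, h2⟩
  rwa [mem_ball, dist_zero_right]

/-- (i) no bounded nonempty open set has its frontier in a totally disconnected closed set -/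
theorem no_bounded (hADD : S_ADD) (hCOV : S_COV) {L B1 : Set ℂ} (hTD : TD L)
    (hB1 : IsOpen B1) (hbd : Bornology.IsBounded B1) (hfr : frontier B1 ⊆ L) : B1 = ∅ := by
  by_contra hne
  obtain ⟨b, hb⟩ := nonempty_iff_ne_empty.2 hne
  classical
  set L' := frontier B1 with hL'
  have hcl : IsClosed L' := isClosed_frontier
  have hTD' : TD L' := TD.mono hTD hfr
  obtain ⟨R, hR0, hR⟩ : ∃ R : ℝ, 0 < R ∧ closure B1 ⊆ ball 0 (R / 2) := by
    obtain ⟨r, hr⟩ := (Metric.isBounded_iff_subset_ball 0).1 hbd.closure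
    refine ⟨2 * max r 1, by positivity, hr.trans (ball_subset_ball ?_)⟩
    have := le_max_left r 1
    linarith
  have hbL : b ∉ L' := fun h => (hB1.inter_frontier_eq ▸ (⟨hb, h⟩ : b ∈ B1 ∩ frontier B1) : b ∈ (∅ : Set ℂ))
  obtain ⟨δ, hδ, hδs⟩ := Metric.isOpen_iff.1 hcl.isOpen_compl b hbL
  -- the function
  let N : ℂ → ℂ := fun z => if z ∈ B1 then 0 else 1 / (z - b)
  have hNin : ∀ z ∈ B1, N z = 0 := fun z hz => if_pos hz
  have hNout : ∀ z, z ∉ B1 → N z = 1 / (z - b) := fun z hz => if_neg hz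
  have hN : DifferentiableOn ℂ N L'ᶜ := by
    intro z hz
    by_cases hzB : z ∈ B1
    · have : N =ᶠ[𝓝 z] fun _ => 0 := by
        filter_upwards [hB1.mem_nhds hzB] with w hw using hNin w hw
      exact ((differentiableAt_const (0 : ℂ)).congr_of_eventuallyEq this).differentiableWithinAt
    · have hzc : z ∈ (closure B1)ᶜ := by
        intro hc
        exact hz ⟨hc, by rwa [hB1.interior_eq]⟩
      have hzb : z - b ≠ 0 := by
        intro h0
        rw [sub_eq_zero] at h0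
        exact hzB (h0 ▸ hb)
      have : N =ᶠ[𝓝 z] fun w => 1 / (w - b) := by
        filter_upwards [isClosed_closure.isOpen_compl.mem_nhds hzc] with w hw
        exact hNout w fun h => hw (subset_closure h)
      refine (DifferentiableAt.congr_of_eventuallyEq ?_ this).differentiableWithinAt
      exact (differentiableAt_const _).div (differentiableAt_id.sub_const b) hzb
  -- the big disc
  have hΦ : CD (fun ζ : ℂ => (R : ℂ) * ζ) (1 / 2) L' := by
    refine ⟨⟨by fun_prop, ?_⟩, by norm_num, by norm_num, ?_⟩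
    · intro x _ y _ hxy
      exact mul_left_cancel₀ (by exact_mod_cast hR0.ne') hxy
    · intro ζ h1 _ h3
      have h4 := hR (frontier_subset_closure h3)
      rw [mem_ball, dist_zero_right, norm_mul, norm_real, Real.norm_eq_abs, abs_of_pos hR0] at h4
      nlinarith
  have hΦim : ∀ z : ℂ, ‖z‖ < R → z ∈ (fun ζ : ℂ => (R : ℂ) * ζ) '' ball 0 1 := by
    intro z hz
    refine ⟨z / R, ?_, ?_⟩
    · rw [mem_ball, dist_zero_right, norm_div, norm_real, Real.norm_eq_abs, abs_of_pos hR0,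
        div_lt_one hR0]
      exact hz
    · have : (R : ℂ) ≠ 0 := by exact_mod_cast hR0.ne'
      show (R : ℂ) * (z / R) = z
      field_simp
  obtain ⟨m, χ, κ, hχ, hdis, hcov⟩ := hCOV L' R (min δ (R / 2)) hcl hTD' (lt_min hδ (by positivity))
  have hsmall : ∀ k, ∀ z ∈ χ k '' ball 0 1, z ≠ b ∧ ‖z‖ < R := by
    intro k z hz
    obtain ⟨p, hp, hpL⟩ := (hχ k).2.2
    have h1 := (hχ k).2.1 z hz p hp
    constructor
    · rintro rfl
      refine hδs ?_ hpL
      rw [mem_ball, dist_comm, dist_eq_norm]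
      exact h1.trans_le (min_le_left _ _)
    · have h2 := hR (frontier_subset_closure hpL)
      rw [mem_ball, dist_zero_right] at h2
      have h3 : ‖z‖ ≤ ‖z - p‖ + ‖p‖ := by
        calc ‖z‖ = ‖(z - p) + p‖ := by rw [sub_add_cancel]
          _ ≤ _ := norm_add_le _ _
      have h4 := h1.trans_le (min_le_right δ (R / 2))
      linarith
  have hsum := hADD L' N (fun ζ : ℂ => (R : ℂ) * ζ) (1 / 2) (3 / 4) m χ κ (fun k => (κ k + 1) / 2)
    hcl hN hΦ (by norm_num) (by norm_num) (fun k => ⟨(hχ k).1, by have := (hχ k).1.k1; linarith,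
      by have := (hχ k).1.k1; linarith, fun z hz => hΦim z (hsmall k z hz).2⟩) hdis (by
      intro Z hZ _
      refine hcov Z hZ ?_
      have := hR (frontier_subset_closure hZ)
      rw [mem_ball, dist_zero_right] at this
      linarith)
  -- the small circles contribute nothing
  have hzero : ∀ k, (∮ ζ in C(0, (κ k + 1) / 2), N (χ k ζ) * deriv (χ k) ζ) = 0 := by
    intro k
    have hk0 := (hχ k).1.k0
    have hk1 := (hχ k).1.k1
    have hcoll := collar_preconnected (hχ k).1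
    have hρ : ∀ ζ ∈ sphere (0 : ℂ) ((κ k + 1) / 2), κ k < ‖ζ‖ ∧ ‖ζ‖ < 1 := by
      intro ζ hζ
      rw [mem_sphere, dist_zero_right] at hζ
      constructor <;> linarith
    have hdich : (∀ ζ ∈ sphere (0 : ℂ) ((κ k + 1) / 2), N (χ k ζ) = 0) ∨
        (∀ ζ ∈ sphere (0 : ℂ) ((κ k + 1) / 2), N (χ k ζ) = 1 / (χ k ζ - b)) := by
      by_cases hex : ∃ ζ ∈ {ζ : ℂ | κ k < ‖ζ‖ ∧ ‖ζ‖ < 1}, χ k ζ ∈ B1
      · left
        obtain ⟨ζ0, hζ0, hin⟩ := hex
        have hsub : χ k '' {ζ : ℂ | κ k < ‖ζ‖ ∧ ‖ζ‖ < 1} ⊆ B1 := by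
          by_contra hcon
          rw [not_subset] at hcon
          obtain ⟨_, ⟨ζ1, hζ1, rfl⟩, hout⟩ := hcon
          have h1 : χ k '' {ζ : ℂ | κ k < ‖ζ‖ ∧ ‖ζ‖ < 1} ⊆ B1 ∪ (closure B1)ᶜ := by
            rintro _ ⟨ζ, hζ, rfl⟩
            by_cases hB : χ k ζ ∈ B1
            · exact Or.inl hB
            · refine Or.inr fun hc => (hχ k).1.free ζ hζ.1 hζ.2 ⟨hc, ?_⟩
              rwa [hB1.interior_eq]
          have h2 := hcoll B1 (closure B1)ᶜ hB1 isClosed_closure.isOpen_compl h1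
            ⟨_, ⟨ζ0, hζ0, rfl⟩, hin⟩ ⟨_, ⟨ζ1, hζ1, rfl⟩, by
              rcases h1 ⟨ζ1, hζ1, rfl⟩ with h | h
              · exact absurd h hout
              · exact h⟩
          obtain ⟨w, -, hw1, hw2⟩ := h2
          exact hw2 (subset_closure hw1)
        intro ζ hζ
        exact hNin _ (hsub ⟨ζ, hρ ζ hζ, rfl⟩)
      · right
        push Not at hex
        intro ζ hζ
        exact hNout _ (hex ζ (hρ ζ hζ))
    rcases hdich with h | h
    · have : (∮ ζ in C(0, (κ k + 1) / 2), N (χ k ζ) * deriv (χ k) ζ) =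
          ∮ ζ in C(0, (κ k + 1) / 2), (0 : ℂ) := by
        refine circleIntegral.integral_congr (by linarith) fun ζ hζ => ?_
        simp only [h ζ hζ, zero_mul]
      rw [this]
      simp [circleIntegral]
    · have : (∮ ζ in C(0, (κ k + 1) / 2), N (χ k ζ) * deriv (χ k) ζ) =
          ∮ ζ in C(0, (κ k + 1) / 2), (1 / (χ k ζ - b)) * deriv (χ k) ζ := by
        refine circleIntegral.integral_congr (by linarith) fun ζ hζ => ?_
        simp only [h ζ hζ]
      rw [this]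
      have hdiff : DifferentiableOn ℂ (fun ζ => (1 / (χ k ζ - b)) * deriv (χ k) ζ) (ball 0 1) := by
        intro ζ hζ
        have h1 : DifferentiableAt ℂ (χ k) ζ := (hχ k).1.u.1.differentiableAt
          (isOpen_ball.mem_nhds hζ)
        have h2 : DifferentiableAt ℂ (deriv (χ k)) ζ :=
          ((hχ k).1.u.1.deriv isOpen_ball).differentiableAt (isOpen_ball.mem_nhds hζ)
        have h3 : χ k ζ - b ≠ 0 := sub_ne_zero.2 (hsmall k _ ⟨ζ, hζ, rfl⟩).1
        exact (((differentiableAt_const (1 : ℂ)).div (h1.sub_const b) h3).mul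
          h2).differentiableWithinAt
      have hcb : closedBall (0 : ℂ) ((κ k + 1) / 2) ⊆ ball 0 1 :=
        closedBall_subset_ball (by linarith)
      refine circleIntegral_eq_zero_of_differentiable_on_off_countable (by linarith)
        countable_empty (hdiff.continuousOn.mono hcb) ?_
      rintro ζ ⟨hζ, -⟩
      exact hdiff.differentiableAt (isOpen_ball.mem_nhds (hcb (ball_subset_closedBall hζ)))
  rw [Finset.sum_eq_zero fun k _ => hzero k] at hsum
  -- the big circle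
  have hbig : (∮ ζ in C(0, 3 / 4), N ((R : ℂ) * ζ) * deriv (fun ζ : ℂ => (R : ℂ) * ζ) ζ) =
      ∮ ζ in C(0, 3 / 4), (ζ - b / R)⁻¹ := by
    refine circleIntegral.integral_congr (by norm_num) fun ζ hζ => ?_
    rw [mem_sphere, dist_zero_right] at hζ
    have hRc : (R : ℂ) ≠ 0 := by exact_mod_cast hR0.ne'
    have hout : (R : ℂ) * ζ ∉ B1 := by
      intro h1
      have h2 := hR (subset_closure h1)
      rw [mem_ball, dist_zero_right, norm_mul, norm_real, Real.norm_eq_abs, abs_of_pos hR0,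
        hζ] at h2
      nlinarith
    have hd : deriv (fun ζ : ℂ => (R : ℂ) * ζ) ζ = R := by
      rw [deriv_const_mul _ differentiableAt_fun_id, deriv_id'', mul_one]
    simp only [hd, hNout _ hout]
    have h3 : (R : ℂ) * ζ - b = R * (ζ - b / R) := by
      field_simp
    rw [h3, one_div, mul_inv, mul_comm ((R : ℂ)⁻¹), mul_assoc, inv_mul_cancel₀ hRc, mul_one]
  have hbin : b / R ∈ ball (0 : ℂ) (3 / 4) := by
    have h1 := hR (subset_closure hb)
    rw [mem_ball, dist_zero_right] at h1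
    rw [mem_ball, dist_zero_right, norm_div, norm_real, Real.norm_eq_abs, abs_of_pos hR0,
      div_lt_iff₀ hR0]
    linarith
  rw [hbig, circleIntegral.integral_sub_inv_of_mem_ball hbin] at hsum
  exact two_pi_I_ne_zero hsum

/-- discs with connected free collar do not meet both sides -/
theorem disc_side (hADD : S_ADD) (hCOV : S_COV) {L A B : Set ℂ} (hTD : TD L)
    (hA : IsOpen A) (hB : IsOpen B) (hAB : Disjoint A B)
    {χ : ℂ → ℂ} {κ : ℝ} (hχ : CD χ κ L) (hcov : χ '' ball 0 1 ⊆ A ∪ B ∪ L)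
    (hin : ∀ ζ : ℂ, κ < ‖ζ‖ → ‖ζ‖ < 1 → χ ζ ∈ A) : B ∩ χ '' ball 0 1 = ∅ := by
  have hsub : B ∩ χ '' ball 0 1 ⊆ χ '' closedBall 0 κ := by
    rintro _ ⟨hzB, ζ, hζ, rfl⟩
    refine ⟨ζ, ?_, rfl⟩
    rw [mem_closedBall, dist_zero_right]
    by_contra hc
    rw [mem_ball, dist_zero_right] at hζ
    exact Set.disjoint_left.1 hAB (hin ζ (not_le.1 hc) hζ) hzB
  have hcomp : IsCompact (χ '' closedBall 0 κ) :=
    (isCompact_closedBall (0 : ℂ) κ).image_of_continuousOn
      (hχ.u.1.continuousOn.mono (closedBall_subset_ball hχ.k1))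
  refine no_bounded hADD hCOV hTD (hB.inter (open_disc hχ.u)) (hcomp.isBounded.subset hsub) ?_
  intro x hx
  have hxc : x ∈ χ '' closedBall 0 κ :=
    closure_minimal hsub hcomp.isClosed (frontier_subset_closure hx)
  have hxD : x ∈ χ '' ball 0 1 := (image_mono (closedBall_subset_ball hχ.k1)) hxc
  have hxcl : x ∈ closure (B ∩ χ '' ball 0 1) := frontier_subset_closure hx
  by_contra hxL
  rcases hcov hxD with (h | h) | h
  · obtain ⟨y, hy1, hy2⟩ := mem_closure_iff.1 hxcl A hA h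
    exact Set.disjoint_left.1 hAB hy1 hy2.1
  · have hop := hB.inter (open_disc hχ.u)
    rw [hop.frontier_eq] at hx
    exact hx.2 ⟨h, hxD⟩
  · exact hxL h

theorem t_CONN2 (hADD : S_ADD) (hCOV : S_COV) : S_CONN2 := by
  intro L hL hTD V hV hpc u v hu hv hcov hne1 hne2
  by_contra hdis
  rw [not_nonempty_iff_eq_empty] at hdis
  set A := (V \ L) ∩ u with hA
  set B := (V \ L) ∩ v with hB
  have hVL : IsOpen (V \ L) := hV.sdiff hL
  have hAo : IsOpen A := hVL.inter hu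
  have hBo : IsOpen B := hVL.inter hv
  have hAB : Disjoint A B := by
    rw [Set.disjoint_left]
    rintro x ⟨h1, h2⟩ ⟨-, h3⟩
    have : x ∈ (V \ L) ∩ (u ∩ v) := ⟨h1, h2, h3⟩
    rw [hdis] at this
    exact this
  have hABcov : ∀ x ∈ V, x ∉ L → x ∈ A ∨ x ∈ B := by
    intro x hx hxL
    rcases hcov ⟨hx, hxL⟩ with h | h
    · exact Or.inl ⟨⟨hx, hxL⟩, h⟩
    · exact Or.inr ⟨⟨hx, hxL⟩, h⟩
  let A' : Set ℂ := {z | z ∈ V ∧ ∀ᶠ w in 𝓝 z, w ∉ B}
  let B' : Set ℂ := {z | z ∈ V ∧ ∀ᶠ w in 𝓝 z, w ∉ A}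
  have hopen : ∀ S : Set ℂ, IsOpen {z | z ∈ V ∧ ∀ᶠ w in 𝓝 z, w ∉ S} := by
    intro S
    rw [isOpen_iff_mem_nhds]
    rintro z ⟨hz, hw⟩
    filter_upwards [hV.mem_nhds hz, eventually_eventually_nhds.2 hw] with y h1 h2
    exact ⟨h1, h2⟩
  have hcov' : V ⊆ A' ∪ B' := by
    intro z hz
    by_cases hzL : z ∈ L
    · obtain ⟨e, he, hes⟩ := Metric.isOpen_iff.1 hV z hz
      obtain ⟨m, χ, κ, hχ, -, hc⟩ := hCOV L ‖z‖ e hL hTD he
      obtain ⟨k, hk⟩ := hc z hzL le_rfl
      have hDV : χ k '' ball 0 1 ⊆ V := by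
        intro w hw
        refine hes ?_
        rw [mem_ball, dist_eq_norm]
        exact (hχ k).2.1 w hw z hk
      have hnb : χ k '' ball 0 1 ∈ 𝓝 z := (open_disc (hχ k).1.u).mem_nhds hk
      have hcollV : χ k '' {ζ : ℂ | κ k < ‖ζ‖ ∧ ‖ζ‖ < 1} ⊆ V \ L := by
        rintro _ ⟨ζ, hζ, rfl⟩
        exact ⟨hDV ⟨ζ, by rw [mem_ball, dist_zero_right]; exact hζ.2, rfl⟩,
          (hχ k).1.free ζ hζ.1 hζ.2⟩
      have hpc' := collar_preconnected (hχ k).1
      have hcovD : χ k '' ball 0 1 ⊆ A ∪ B ∪ L := by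
        intro w hw
        by_cases hwL : w ∈ L
        · exact Or.inr hwL
        · exact Or.inl (hABcov w (hDV hw) hwL)
      by_cases hex : ∃ ζ : ℂ, κ k < ‖ζ‖ ∧ ‖ζ‖ < 1 ∧ χ k ζ ∈ B
      · right
        have hin : ∀ ζ : ℂ, κ k < ‖ζ‖ → ‖ζ‖ < 1 → χ k ζ ∈ B := by
          intro ζ h1 h2
          by_contra hnot
          obtain ⟨ζ0, h3, h4, h5⟩ := hex
          have hζA : χ k ζ ∈ A := by
            rcases hABcov _ (hcollV ⟨ζ, ⟨h1, h2⟩, rfl⟩).1 (hcollV ⟨ζ, ⟨h1, h2⟩, rfl⟩).2 with h | h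
            · exact h
            · exact absurd h hnot
          have h6 := hpc' A B hAo hBo (fun w hw => hABcov w (hcollV hw).1 (hcollV hw).2)
            ⟨_, ⟨ζ, ⟨h1, h2⟩, rfl⟩, hζA⟩ ⟨_, ⟨ζ0, ⟨h3, h4⟩, rfl⟩, h5⟩
          obtain ⟨w, -, hw1, hw2⟩ := h6
          exact Set.disjoint_left.1 hAB hw1 hw2
        have h7 := disc_side hADD hCOV hTD hBo hAo hAB.symm (hχ k).1
          (by rw [union_comm B A]; exact hcovD) hin
        refine ⟨hz, ?_⟩
        filter_upwards [hnb] with w hw hwA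
        have : w ∈ A ∩ χ k '' ball 0 1 := ⟨hwA, hw⟩
        rw [h7] at this
        exact this
      · left
        push Not at hex
        have hin : ∀ ζ : ℂ, κ k < ‖ζ‖ → ‖ζ‖ < 1 → χ k ζ ∈ A := by
          intro ζ h1 h2
          rcases hABcov _ (hcollV ⟨ζ, ⟨h1, h2⟩, rfl⟩).1 (hcollV ⟨ζ, ⟨h1, h2⟩, rfl⟩).2 with h | h
          · exact h
          · exact absurd h (hex ζ h1 h2)
        have h7 := disc_side hADD hCOV hTD hAo hBo hAB (hχ k).1 hcovD hin
        refine ⟨hz, ?_⟩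
        filter_upwards [hnb] with w hw hwB
        have : w ∈ B ∩ χ k '' ball 0 1 := ⟨hwB, hw⟩
        rw [h7] at this
        exact this
    · rcases hABcov z hz hzL with h | h
      · left
        refine ⟨hz, ?_⟩
        filter_upwards [hAo.mem_nhds h] with w hw hwB
        exact Set.disjoint_left.1 hAB hw hwB
      · right
        refine ⟨hz, ?_⟩
        filter_upwards [hBo.mem_nhds h] with w hw hwA
        exact Set.disjoint_left.1 hAB hwA hw
  obtain ⟨a, haA⟩ := hne1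
  obtain ⟨b, hbB⟩ := hne2
  have hA'ne : (V ∩ A').Nonempty := by
    refine ⟨a, haA.1.1, haA.1.1, ?_⟩
    filter_upwards [hAo.mem_nhds haA] with w hw hwB
    exact Set.disjoint_left.1 hAB hw hwB
  have hB'ne : (V ∩ B').Nonempty := by
    refine ⟨b, hbB.1.1, hbB.1.1, ?_⟩
    filter_upwards [hBo.mem_nhds hbB] with w hw hwA
    exact Set.disjoint_left.1 hAB hwA hw
  obtain ⟨z, hzV, ⟨-, hz1⟩, -, hz2⟩ := hpc A' B' (hopen B) (hopen A) hcov' hA'ne hB'ne
  refine TD.not_nhds hTD z ?_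
  filter_upwards [hV.mem_nhds hzV, hz1, hz2] with w h1 h2 h3
  by_contra h4
  rcases hABcov w h1 h4 with h | h
  · exact h3 h
  · exact h2 h

end Pool.Agent.J4H38.UD
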