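import Pool.Agent.J4H16.UD.Defs

/-!
UD (U3) `S_SUP`: superadditivity of the index, from `S_ADD` and `S_COV`.
-/

set_option autoImplicit false
open Set Filter Topology Metric Complex MeasureTheory

namespace Pool.Agent.J4H38.UD

open Pool.Agent.J4H16 Pool.Agent.W746.LD Pool.Agent.J4H16.AS Pool.Agent.J4H16.UD

/-- the image of the unit disc under a univalent function is open -/
theorem open_disc {φ : ℂ → ℂ} (hu : Univ φ 0 1) : IsOpen (φ '' ball 0 1) := by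
  have han : AnalyticOnNhd ℂ φ (ball 0 1) := hu.1.analyticOnNhd isOpen_ball
  rcases han.is_constant_or_isOpen (convex_ball (0 : ℂ) 1).isPreconnected with ⟨w, hw⟩ | h
  · exfalso
    have h0 : (0 : ℂ) ∈ ball (0 : ℂ) 1 := mem_ball_self one_pos
    have h1 : (1 / 2 : ℂ) ∈ ball (0 : ℂ) 1 := by
      rw [mem_ball, dist_zero_right]; norm_num
    have := hu.2 h0 h1 ((hw 0 h0).trans (hw _ h1).symm)
    norm_num at this
  · exact h _ Subset.rfl isOpen_ball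

/-- the trace of the closed set on the disc is compact -/
theorem compact_core {φ : ℂ → ℂ} {κ : ℝ} {L : Set ℂ} (hL : IsClosed L) (h : CD φ κ L) :
    IsCompact (φ '' closedBall 0 κ ∩ L) ∧ ∀ z ∈ φ '' ball 0 1, z ∈ L → z ∈ φ '' closedBall 0 κ := by
  refine ⟨?_, ?_⟩
  · refine ((isCompact_closedBall (0 : ℂ) κ).image_of_continuousOn ?_).inter_right hL
    exact h.u.1.continuousOn.mono (closedBall_subset_ball h.k1)
  · rintro _ ⟨ζ, hζ, rfl⟩ hz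
    refine ⟨ζ, ?_, rfl⟩
    rw [mem_closedBall, dist_zero_right]
    by_contra hc
    rw [mem_ball, dist_zero_right] at hζ
    exact h.free ζ (not_le.1 hc) hζ hz

/-- small sets meeting the trace are contained in the disc -/
theorem small_sub {φ : ℂ → ℂ} {κ : ℝ} {L : Set ℂ} (hL : IsClosed L) (h : CD φ κ L) :
    ∃ e : ℝ, 0 < e ∧ ∀ D : Set ℂ, (∀ z ∈ D, ∀ w ∈ D, ‖z - w‖ < e) →
      (∃ z ∈ D, z ∈ L ∧ z ∈ φ '' ball 0 1) → D ⊆ φ '' ball 0 1 := by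
  obtain ⟨hc, hs⟩ := compact_core hL h
  have hsub : φ '' closedBall 0 κ ∩ L ⊆ φ '' ball 0 1 := by
    rintro _ ⟨⟨ζ, hζ, rfl⟩, -⟩
    exact ⟨ζ, closedBall_subset_ball h.k1 hζ, rfl⟩
  obtain ⟨e, he, hthick⟩ := hc.exists_thickening_subset_open (open_disc h.u) hsub
  refine ⟨e, he, fun D hD ⟨z, hzD, hzL, hz⟩ w hw => hthick ?_⟩
  rw [mem_thickening_iff]
  exact ⟨z, ⟨hs z hz hzL, hzL⟩, by rw [dist_eq_norm]; exact hD w hw z hzD⟩

/-- `S_ADD` for a subfamily -/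
theorem add_finset (hADD : S_ADD) {L : Set ℂ} {N Φ : ℂ → ℂ} {κ ρ : ℝ} {m : ℕ}
    {χ : Fin m → ℂ → ℂ} {κ' ρ' : Fin m → ℝ} (I : Finset (Fin m)) (hL : IsClosed L)
    (hN : DifferentiableOn ℂ N Lᶜ) (hΦ : CD Φ κ L) (h1 : κ < ρ) (h2 : ρ < 1)
    (hχ : ∀ k ∈ I, CD (χ k) (κ' k) L ∧ κ' k < ρ' k ∧ ρ' k < 1 ∧
      χ k '' ball 0 1 ⊆ Φ '' ball 0 1)
    (hdis : ∀ k l, k ≠ l → Disjoint (χ k '' ball 0 1) (χ l '' ball 0 1))
    (hcov : ∀ Z ∈ L, Z ∈ Φ '' ball 0 1 → ∃ k ∈ I, Z ∈ χ k '' ball 0 1) :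
    (∮ ζ in C(0, ρ), N (Φ ζ) * deriv Φ ζ) =
      ∑ k ∈ I, ∮ ζ in C(0, ρ' k), N (χ k ζ) * deriv (χ k) ζ := by
  have e := I.equivFin.symm
  rw [hADD L N Φ κ ρ I.card (fun j => χ (e j)) (fun j => κ' (e j)) (fun j => ρ' (e j)) hL hN hΦ h1
    h2 (fun j => hχ _ (e j).2) ?_ ?_]
  · rw [← Finset.sum_coe_sort I (fun k => ∮ ζ in C(0, ρ' k), N (χ k ζ) * deriv (χ k) ζ)]
    exact e.sum_comp (fun k : I => ∮ ζ in C(0, ρ' k), N (χ k ζ) * deriv (χ k) ζ)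
  · intro j l hjl
    refine hdis _ _ fun h => hjl (e.injective (Subtype.ext h))
  · intro Z hZ hZΦ
    obtain ⟨k, hk, hZk⟩ := hcov Z hZ hZΦ
    exact ⟨e.symm ⟨k, hk⟩, by simpa using hZk⟩

theorem t_SUP (hADD : S_ADD) (hCOV : S_COV) : S_SUP := by
  intro L N B hL hTD hN hpos φ0 φ1 φ2 κ0 κ1 κ2 ρ0 ρ1 ρ2 i0 i1 i2 c0 c1 c2 hκ0 hρ0 hκ1 hρ1 hκ2 hρ2
    hB h10 h20 h12 I0 I1 I2
  obtain ⟨e0, he0, s0⟩ := small_sub hL c0
  obtain ⟨e1, he1, s1⟩ := small_sub hL c1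
  obtain ⟨e2, he2, s2⟩ := small_sub hL c2
  set e : ℝ := min e0 (min e1 e2) with hedef
  have he : 0 < e := lt_min he0 (lt_min he1 he2)
  have hee0 : e ≤ e0 := min_le_left _ _
  have hee1 : e ≤ e1 := (min_le_right _ _).trans (min_le_left _ _)
  have hee2 : e ≤ e2 := (min_le_right _ _).trans (min_le_right _ _)
  obtain ⟨m, χ, κ, hχ, hdis, hcov⟩ := hCOV L B e hL hTD he
  classical
  -- the discs inside each of the three discs
  let J : (ℂ → ℂ) → Finset (Fin m) := fun φ =>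
    Finset.univ.filter fun k => ∃ z ∈ χ k '' ball 0 1, z ∈ L ∧ z ∈ φ '' ball 0 1
  have hsub0 : ∀ k ∈ J φ0, χ k '' ball 0 1 ⊆ φ0 '' ball 0 1 := by
    intro k hk
    refine s0 _ (fun z hz w hw => lt_of_lt_of_le ((hχ k).2.1 z hz w hw) hee0) ?_
    exact (Finset.mem_filter.1 hk).2
  have hsub1 : ∀ k ∈ J φ1, χ k '' ball 0 1 ⊆ φ1 '' ball 0 1 := by
    intro k hk
    refine s1 _ (fun z hz w hw => lt_of_lt_of_le ((hχ k).2.1 z hz w hw) hee1) ?_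
    exact (Finset.mem_filter.1 hk).2
  have hsub2 : ∀ k ∈ J φ2, χ k '' ball 0 1 ⊆ φ2 '' ball 0 1 := by
    intro k hk
    refine s2 _ (fun z hz w hw => lt_of_lt_of_le ((hχ k).2.1 z hz w hw) hee2) ?_
    exact (Finset.mem_filter.1 hk).2
  have hJmono : ∀ φ : ℂ → ℂ, φ '' ball 0 1 ⊆ φ0 '' ball 0 1 → J φ ⊆ J φ0 := by
    intro φ hφ k hk
    obtain ⟨z, hz, hzL, hzφ⟩ := (Finset.mem_filter.1 hk).2
    exact Finset.mem_filter.2 ⟨Finset.mem_univ _, z, hz, hzL, hφ hzφ⟩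
  have hJdis : Disjoint (J φ1) (J φ2) := by
    rw [Finset.disjoint_left]
    intro k hk1 hk2
    have h0 : χ k 0 ∈ χ k '' ball 0 1 := ⟨0, mem_ball_self one_pos, rfl⟩
    exact Set.disjoint_left.1 h12 (hsub1 k hk1 h0) (hsub2 k hk2 h0)
  -- the indices of the small discs
  have hι : ∀ k, ∃ ι : ℝ, k ∈ J φ0 → 0 ≤ ι ∧
      (∮ ζ in C(0, (κ k + 1) / 2), N (χ k ζ) * deriv (χ k) ζ) = -(2 * Real.pi * I * ι) := by
    intro k
    by_cases hk : k ∈ J φ0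
    · have h1 := (hχ k).1.k1
      obtain ⟨ι, h⟩ := hpos (χ k) (κ k) ((κ k + 1) / 2) (hχ k).1 (by linarith) (by linarith)
        ((hsub0 k hk).trans hB)
      exact ⟨ι, fun _ => h⟩
    · exact ⟨0, fun h => absurd h hk⟩
  choose ι hι using hι
  have key : ∀ (φ : ℂ → ℂ) (κφ ρ i : ℝ), CD φ κφ L → κφ < ρ → ρ < 1 →
      φ '' ball 0 1 ⊆ φ0 '' ball 0 1 → (∀ k ∈ J φ, χ k '' ball 0 1 ⊆ φ '' ball 0 1) →
      (∮ ζ in C(0, ρ), N (φ ζ) * deriv φ ζ) = -(2 * Real.pi * I * i) →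
      i = ∑ k ∈ J φ, ι k := by
    intro φ κφ ρ i hcd h1 h2 h3 h4 h5
    have h6 := add_finset hADD (ρ' := fun k => (κ k + 1) / 2) (κ' := κ) (J φ) hL hN hcd h1 h2
      (χ := χ) (fun k hk => ⟨(hχ k).1, by have := (hχ k).1.k1; linarith,
        by have := (hχ k).1.k1; linarith, h4 k hk⟩) hdis (by
        intro Z hZ hZφ
        have hZB : ‖Z‖ ≤ B := by
          have := hB (h3 hZφ)
          rw [mem_ball, dist_zero_right] at this
          exact this.le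
        obtain ⟨k, hk⟩ := hcov Z hZ hZB
        exact ⟨k, Finset.mem_filter.2 ⟨Finset.mem_univ _, Z, hk, hZ, hZφ⟩, hk⟩)
    rw [h5, Finset.sum_congr rfl fun k hk => (hι k (hJmono φ h3 hk)).2, Finset.sum_neg_distrib,
      ← Finset.mul_sum, neg_inj] at h6
    have h7 := mul_left_cancel₀ (by simp [Real.pi_ne_zero] : (2 * Real.pi * I : ℂ) ≠ 0) h6
    exact_mod_cast h7
  have e0' := key φ0 κ0 ρ0 i0 c0 hκ0 hρ0 Subset.rfl hsub0 I0
  have e1' := key φ1 κ1 ρ1 i1 c1 hκ1 hρ1 h10 hsub1 I1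
  have e2' := key φ2 κ2 ρ2 i2 c2 hκ2 hρ2 h20 hsub2 I2
  rw [e0', e1', e2', ← Finset.sum_union hJdis]
  refine Finset.sum_le_sum_of_subset_of_nonneg
    (Finset.union_subset (hJmono _ h10) (hJmono _ h20)) fun k hk _ => (hι k hk).1

end Pool.Agent.J4H38.UD
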